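import Pool.Agent.Helper478_Gen.Powers

/-!
# The sequences `e ^ i / n` and `π ^ i / n` for almost all integers `n`

If `e ^ i / n`, `i = 1, 2, …`, is equidistributed modulo one for one integer `n ≥ 1`, then so is `e ^ i`. We
prove that for all but `N exp(-√log N)` of the integers `n` in `(N, 2N]` the pairs `(e ^ i / n, π ^ i / n)`
are equidistributed in the unit square, up to `ε`, in every window of `(log N)^(1-γ)` or more
places `i` between `(1 + δ) log N` and `(log N)^(1+γ)`. For `i < log N` the points `e ^ i / n` lie in `(0, 1)`, and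
the number `n` has only `log N / log 2` binary digits, so that for `i` beyond a multiple of `log N` no argument
which counts the integers `n` can give this. The same holds for `n ^ θ`, `-1 ≤ θ < 0`, and for
`x_1 β_1 ^ i, …, x_r β_r ^ i` with arbitrary real numbers `β_j > 1` and real `x_j`, which are linearly
independent over `ℚ` as far as they belong to the same `β`. For integers `β_j` this is about the digits of
`x_j / n` in several bases at once, for instance of `e / n` in base `2` and of `π / n` in base `10`.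

Proof. By the criterion of Weyl one has to bound the sums of `e(a_i n ^ θ)` over the places `i` of a window,
where `a_i = ∑ h_j x_j β_j ^ i`. Along a progression of places with difference `J` the numbers `a_i`
grow by factors `≥ 3`, so that `∑ ε_i a_i` is not small for `ε_i ∈ {-1, 0, 1}`. By the method of Vinogradov and Korobov
the sums over `n` of `e(F n ^ θ)`, `N ^ δ ≤ F N ^ θ ≤ exp((log N)^(1+γ))`, are at most
`N exp(-2 (log N)^(1-3γ))`, and Riesz products give the large deviations of the sums over the blocks of places.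
-/

set_option autoImplicit false

namespace Pool.Agent.Results.MP_9056e9_nt.PowersOverIntegers

/-- The points with the coordinates `z j * (β j) ^ i`, `u < i ≤ v`, are equidistributed modulo one up to `ε`: for
all boxes `∏ [p j, q j)` in the unit cube the number of the `i` in `(u, v]` for which the fractional part of
`z j * (β j) ^ i` lies in `[p j, q j)` for all `j` differs from `v - u` times the volume of the box by at most
`ε (v - u)`. -/
def JointEqui {r : ℕ} (β z : Fin r → ℝ) (u v : ℕ) (ε : ℝ) : Prop :=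
  ∀ p q : Fin r → ℝ, (∀ j, 0 ≤ p j ∧ p j ≤ q j ∧ q j ≤ 1) →
    |(({i : ℕ | u < i ∧ i ≤ v ∧ ∀ j, p j ≤ Int.fract (z j * (β j) ^ i) ∧
      Int.fract (z j * (β j) ^ i) < q j}.ncard : ℕ) : ℝ) - ((v : ℝ) - u) * ∏ j, (q j - p j)| ≤
        ε * ((v : ℝ) - u)

/-- There is an absolute constant `γ > 0` such that for all real `θ ∈ [-1, 0)`, all `r ≥ 1`, all real
numbers `β 1, …, β r > 1` (for instance `e` and `π`, or `2` and `10`) and real numbers `x 1, …, x r` such that for each
`B` the numbers `x j` with `β j = B` are linearly independent over `ℚ` (for different `β j` this means only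
`x j ≠ 0`) and all `δ, ε > 0` the following holds for all large `N`. For all but at most `N exp(-√log N)` of the
integers `n` in `(N, 2N]` the points with the coordinates `x j * n ^ θ * (β j) ^ i`, `u < i ≤ v`, are jointly
equidistributed modulo one up to `ε` for all `u, v` with `v - u ≥ (log N)^(1-γ)`, `v ≤ (log N)^(1+γ)` and
`(β j) ^ u * N ^ θ ≥ N ^ δ` for all `j`. -/
theorem result : ∃ γ : ℝ, 0 < γ ∧ ∀ θ : ℝ, -1 ≤ θ → θ < 0 → ∀ (r : ℕ) (β x : Fin r → ℝ), 1 ≤ r →
    (∀ j, 1 < β j) → (∀ B : ℝ, LinearIndependent ℚ (fun j : {j : Fin r // β j = B} => x j)) →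
      ∀ δ : ℝ, 0 < δ → ∀ ε : ℝ, 0 < ε → ∃ N₀ : ℕ, ∀ N : ℕ, N₀ ≤ N →
      (({n : ℕ | N < n ∧ n ≤ 2 * N ∧ ¬ ∀ u v : ℕ, (Real.log N) ^ (1 - γ) ≤ (v : ℝ) - u →
        (v : ℝ) ≤ (Real.log N) ^ (1 + γ) → (∀ j, (N : ℝ) ^ δ ≤ (β j) ^ u * (N : ℝ) ^ θ) →
        JointEqui β (fun j => x j * (n : ℝ) ^ θ) u v ε}.ncard : ℕ) : ℝ) ≤
          N * Real.exp (-√(Real.log N)) := by
  classical
  obtain ⟨γ, hγ0, hγ1, h⟩ := Pool.Agent.Helper478.Gen.powers
  refine ⟨γ, hγ0, ?_⟩
  intro θ h1 h2 r β x hr hβ hx δ hδ ε hε
  have hind : Pool.Agent.Helper478.Gen.Indep β x := by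
    intro Z B hsum j hj
    have h1 := hx B
    rw [Fintype.linearIndependent_iff] at h1
    have h2 := h1 (fun i => (Z i : ℚ)) (by
      rw [← hsum]
      rw [← Finset.sum_subtype (Finset.univ.filter fun i => β i = B) (by simp)
        (fun i => (Z i : ℚ) • x i)]
      refine Finset.sum_congr rfl fun i _ => ?_
      rw [Rat.smul_def]
      push_cast
      rfl) ⟨j, hj⟩
    exact_mod_cast h2
  obtain ⟨N₀, hN₀⟩ := h θ h1 h2 r β x hr hβ hind δ hδ ε hε
  refine ⟨N₀, fun N hN => le_trans (le_of_eq ?_) (hN₀ N hN)⟩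
  congr 2
  ext n
  simp only [Set.mem_setOf_eq]
  refine and_congr_right fun _ => and_congr_right fun _ => ?_
  constructor
  · intro hn
    push Not at hn
    obtain ⟨u, v, a2, a3, a4, a5⟩ := hn
    unfold JointEqui at a5
    push Not at a5
    obtain ⟨p, q, a6, a7⟩ := a5
    exact ⟨u, v, a2, a3, a4, p, q, a6, a7⟩
  · rintro ⟨u, v, a2, a3, a4, p, q, a6, a7⟩ hn
    exact absurd a7 (not_lt.2 (hn u v a2 a3 a4 p q a6))

end Pool.Agent.Results.MP_9056e9_nt.PowersOverIntegers
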